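import Mathlib

/-!
# Project LD5, block CLS2: counting in classes
-/

set_option autoImplicit false

namespace Pool.Agent.Helper17.LD5

/-- splitting the exponents `a * n` into classes modulo `Q` -/
theorem card_classes17 {W0 W1 : ℕ → Prop} {a Q : ℕ} (ha : 1 ≤ a) (hQ : 1 ≤ Q) (haQ : a ∣ Q) {N0 N1 : ℕ} {t0 t1 : ℕ → ℕ}
    (I0 : ∀ n, N0 ≤ n ↔ W0 (a * n)) (I1 : ∀ n, N1 ≤ n ↔ W1 (a * n)) (i0 : ∀ e < Q, ∀ j, t0 e ≤ j ↔ W0 (Q * j + e))
    (i1 : ∀ e < Q, ∀ j, t1 e ≤ j ↔ W1 (Q * j + e)) (p : ℕ → Prop) [DecidablePred p] :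
    ((Finset.Ico N0 N1).filter fun n => p (a * n)).card =
      ∑ e ∈ (Finset.range Q).filter (a ∣ ·), ((Finset.Ico (t0 e) (t1 e)).filter fun j => p (Q * j + e)).card := by
  rw [Finset.card_eq_sum_card_fiberwise (f := fun n => (a * n) % Q) (t := (Finset.range Q).filter (a ∣ ·))]
  · refine Finset.sum_congr rfl fun e he => ?_
    obtain ⟨he1, he2⟩ := Finset.mem_filter.1 he
    have he1 : e < Q := Finset.mem_range.1 he1
    have key : ∀ j, a * ((Q * j + e) / a) = Q * j + e := fun j =>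
      Nat.mul_div_cancel' (dvd_add (haQ.mul_right j) he2)
    have key2 : ∀ n, (a * n) % Q = e → Q * (a * n / Q) + e = a * n := fun n h4 => by
      have := Nat.div_add_mod (a * n) Q
      rw [h4] at this
      exact this
    refine Finset.card_bij' (fun n _ => (a * n) / Q) (fun j _ => (Q * j + e) / a) ?_ ?_ ?_ ?_
    · intro n hn
      simp only [Finset.mem_filter, Finset.mem_Ico] at hn ⊢
      obtain ⟨⟨⟨h1, h2⟩, h3⟩, h4⟩ := hn
      have h5 := key2 n h4
      rw [h5]
      refine ⟨⟨?_, ?_⟩, h3⟩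
      · rw [i0 e he1, h5, ← I0]; exact h1
      · rw [← not_le, i1 e he1, h5, ← I1, not_le]; exact h2
    · intro j hj
      simp only [Finset.mem_filter, Finset.mem_Ico] at hj ⊢
      obtain ⟨⟨h1, h2⟩, h3⟩ := hj
      rw [key]
      refine ⟨⟨⟨?_, ?_⟩, h3⟩, ?_⟩
      · rw [I0, key, ← i0 e he1]; exact h1
      · rw [← not_le, I1, key, ← i1 e he1, not_le]; exact h2
      · rw [Nat.mul_add_mod, Nat.mod_eq_of_lt he1]
    · intro n hn
      simp only [Finset.mem_filter, Finset.mem_Ico] at hn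
      have h5 := key2 n hn.2
      simp only [h5]
      exact Nat.mul_div_cancel_left n ha
    · intro j hj
      simp only [key]
      rw [Nat.mul_add_div (by omega), Nat.div_eq_of_lt he1, add_zero]
  · intro n hn
    have h1 : a ∣ (a * n) % Q := (Nat.dvd_mod_iff haQ).2 (dvd_mul_right a n)
    simp only [Finset.coe_filter, Finset.mem_range, Set.mem_ofPred_eq]
    exact ⟨Nat.mod_lt _ (by omega), h1⟩

/-- the count minus its mean, as a difference of partial sums -/
theorem sg17 (p : ℕ → Prop) [DecidablePred p] (δ : ℝ) {s t : ℕ} (h : s ≤ t) :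
    (((Finset.Ico s t).filter p).card : ℝ) - ((t : ℝ) - s) * δ =
      ∑ j ∈ Finset.range t, ((if p j then (1 : ℝ) else 0) - δ) - ∑ j ∈ Finset.range s, ((if p j then (1 : ℝ) else 0) - δ) := by
  rw [← Finset.sum_Ico_eq_sub _ h, Finset.sum_sub_distrib, Finset.natCast_card_filter, Finset.sum_const, Nat.card_Ico, nsmul_eq_mul,
    Nat.cast_sub h]

theorem step17 (p : ℕ → Prop) [DecidablePred p] {δ : ℝ} (h0 : 0 ≤ δ) (h1 : δ ≤ 1) {s s' : ℕ} (hs : s ≤ s') (hs2 : s' ≤ s + 1) :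
    |∑ j ∈ Finset.range s', ((if p j then (1 : ℝ) else 0) - δ) - ∑ j ∈ Finset.range s, ((if p j then (1 : ℝ) else 0) - δ)| ≤ 1 := by
  rcases Nat.le_or_eq_of_le_succ hs2 with h | h
  · have : s' = s := le_antisymm h hs
    rw [this, sub_self, abs_zero]
    exact zero_le_one
  · rw [h, Finset.sum_range_succ, add_sub_cancel_left]
    split_ifs
    · rw [abs_le]; constructor <;> linarith
    · rw [abs_le]; constructor <;> linarith

/-- moving both ends by at most one -/
theorem ends17 (p : ℕ → Prop) [DecidablePred p] {δ : ℝ} (h0 : 0 ≤ δ) (h1 : δ ≤ 1) {s t s' t' : ℕ} (hst : s ≤ t) (hst' : s' ≤ t')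
    (hs : s ≤ s') (hs2 : s' ≤ s + 1) (ht : t ≤ t') (ht2 : t' ≤ t + 1) {E : ℝ}
    (h : |(((Finset.Ico s' t').filter p).card : ℝ) - ((t' : ℝ) - s') * δ| ≤ E) :
    |(((Finset.Ico s t).filter p).card : ℝ) - ((t : ℝ) - s) * δ| ≤ E + 2 := by
  rw [sg17 p δ hst'] at h
  rw [sg17 p δ hst]
  have a1 := step17 p h0 h1 hs hs2
  have a2 := step17 p h0 h1 ht ht2
  rw [abs_le] at h a1 a2 ⊢
  constructor <;> linarith [h.1, h.2, a1.1, a1.2, a2.1, a2.2]

/-- a sequence that starts later -/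
theorem shift17 (p : ℕ → Prop) [DecidablePred p] (s n : ℕ) :
    ((Finset.Ico s (s + n)).filter p).card = ((Finset.range n).filter fun j => p (s + j)).card := by
  rw [Finset.card_filter, Finset.card_filter, Finset.sum_Ico_eq_sum_range, Nat.add_sub_cancel_left]

end Pool.Agent.Helper17.LD5
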