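import Pool.Agent.Helper41.LD5.Defs2
import Pool.Agent.Helper31.LD5.TPA
import Pool.Agent.Helper65.LD.F
import Pool.Agent.Helper17.LD5.Cnt

/-!
# Project LD5, block CLS2: the powers, from the classes to one sequence
-/

set_option autoImplicit false

namespace Pool.Agent.Helper17.LD5

open Set MeasureTheory Filter Topology
open Pool.Agent.Helper41.LD (av var haar DiscLe Dioph Kk)
open Pool.Agent.Helper41.LD4
open Pool.Agent.Helper41.LD5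
open Pool.Agent.Helper65.LD.F (disc_of_haar)

section

variable {A₀ : ℝ} {P m : ℕ} {x y a : ℝ}

theorem fp_mono17 (hA : 0 < A₀) (hP : 1 ≤ P) (hm : P ≤ m) (hx : 0 < x) (hxy : x ≤ y) : fp A₀ P m x ≤ fp A₀ P m y := by
  have hP0 : (0 : ℝ) < P := by exact_mod_cast hP
  have hm1 : (1 : ℝ) ≤ (m : ℝ) / P := by
    rw [le_div_iff₀ hP0, one_mul]
    exact_mod_cast hm
  unfold fp
  refine mul_le_mul_of_nonneg_left (Real.rpow_le_rpow hx.le hxy (by linarith)) ?_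
  exact mul_nonneg hA.le (by linarith)

theorem fp_near17 (hA : 0 < A₀) (hP : 1 ≤ P) (hm : P ≤ m) {K : ℕ} (hm2 : m ≤ 2 ^ (3 * K)) {δ : ℝ} (hδ0 : 0 ≤ δ) (ha : 1 ≤ a) (hax : a ≤ x)
    (hxa : x ≤ a + δ) (hδ : δ * 2 ^ (4 * K + 1) ≤ 1) : fp A₀ P m x ≤ fp A₀ P m a * (1 + 2 ^ (3 * K + 1) * δ) := by
  have hP0 : (0 : ℝ) < P := by exact_mod_cast hP
  have hP1 : (1 : ℝ) ≤ P := by exact_mod_cast hP
  have hm1 : (1 : ℝ) ≤ (m : ℝ) / P := by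
    rw [le_div_iff₀ hP0, one_mul]
    exact_mod_cast hm
  set s : ℝ := (m : ℝ) / P - 1 with hs
  have hs0 : 0 ≤ s := by linarith
  have hs1 : s ≤ 2 ^ (3 * K) := by
    have h1 : (m : ℝ) / P ≤ m := div_le_self (Nat.cast_nonneg m) hP1
    have h2 : (m : ℝ) ≤ 2 ^ (3 * K) := by exact_mod_cast hm2
    linarith
  have ha0 : 0 < a := by linarith
  have hx0 : 0 < x := by linarith
  have h3 : x / a ≤ Real.exp δ := by
    rw [div_le_iff₀ ha0]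
    have h4 := Real.add_one_le_exp δ
    nlinarith
  have h5 : x ^ s ≤ a ^ s * (1 + 2 ^ (3 * K + 1) * δ) := by
    have h6 : x ^ s = a ^ s * (x / a) ^ s := by
      rw [← Real.mul_rpow ha0.le (by positivity), mul_div_cancel₀ _ ha0.ne']
    rw [h6]
    refine mul_le_mul_of_nonneg_left ?_ (Real.rpow_nonneg ha0.le _)
    have h7 : (x / a) ^ s ≤ Real.exp (δ * s) := by
      rw [Real.exp_mul]
      exact Real.rpow_le_rpow (by positivity) h3 hs0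
    refine h7.trans ?_
    have h8 : δ * s ≤ 2 ^ (3 * K) * δ := by
      rw [mul_comm]
      exact mul_le_mul_of_nonneg_right hs1 hδ0
    have h9 : 2 ^ (3 * K) * δ ≤ 1 := by
      refine le_trans ?_ hδ
      rw [mul_comm]
      exact mul_le_mul_of_nonneg_left (pow_le_pow_right₀ (by norm_num) (by omega)) hδ0
    have h10 : 0 ≤ δ * s := mul_nonneg hδ0 hs0
    have h11 := Real.abs_exp_sub_one_le (x := δ * s) (by rw [abs_of_nonneg h10]; linarith)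
    rw [abs_of_nonneg h10] at h11
    have h12 := (abs_le.1 h11).2
    have h13 : (2 : ℝ) ^ (3 * K + 1) * δ = 2 * (2 ^ (3 * K) * δ) := by rw [pow_succ]; ring
    rw [h13]
    linarith
  unfold fp
  calc A₀ * ((m : ℝ) / P) * x ^ s ≤ A₀ * ((m : ℝ) / P) * (a ^ s * (1 + 2 ^ (3 * K + 1) * δ)) :=
        mul_le_mul_of_nonneg_left h5 (mul_nonneg hA.le (by linarith))
    _ = _ := by ring

end

section

variable {F : Fam} {x ℓ : ℝ}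

/-- monotone in the exponent -/
theorem fp_up17 (hF : F.Ok) (hx : F.x₁ ≤ x) {m m' : ℕ} (h : m ≤ m') : fp F.A₀ F.P m x ≤ fp F.A₀ F.P m' x := by
  exact TPA.fp_le hF.hA hF.hP (hF.h1.le.trans hx) h

theorem tp_iff17 (hF : F.Ok) (hx : F.x₁ ≤ x) (hℓ : 0 < ℓ) (e j : ℕ) :
    tp F.A₀ F.P F.Q e x ℓ ≤ j ↔ 1 ≤ fp F.A₀ F.P (F.Q * j + e) x * ℓ := by
  constructor
  · intro h
    refine (tp_spec hF hx hℓ e).trans (mul_le_mul_of_nonneg_right (fp_up17 hF hx ?_) hℓ.le)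
    gcongr
  · exact fun h => tp_le h

theorem nuP_iff17 (hF : F.Ok) (hx : F.x₁ ≤ x) (hℓ : 0 < ℓ) {e : ℕ} (heQ : e ∣ F.Q) (n : ℕ) :
    nuP F.A₀ F.P e x ℓ ≤ n ↔ 1 ≤ fp F.A₀ F.P (e * n) x * ℓ := by
  have hne : {n : ℕ | 1 ≤ fp F.A₀ F.P (e * n) x * ℓ}.Nonempty := by
    obtain ⟨q, hq⟩ := heQ
    refine ⟨q * tp F.A₀ F.P F.Q 0 x ℓ, ?_⟩
    have h1 := tp_spec hF hx hℓ 0
    show 1 ≤ fp F.A₀ F.P (e * (q * tp F.A₀ F.P F.Q 0 x ℓ)) x * ℓ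
    have h2 : F.Q * tp F.A₀ F.P F.Q 0 x ℓ = e * (q * tp F.A₀ F.P F.Q 0 x ℓ) := by
      rw [← mul_assoc, ← hq]
    rwa [add_zero, h2] at h1
  constructor
  · intro h
    have h1 : 1 ≤ fp F.A₀ F.P (e * nuP F.A₀ F.P e x ℓ) x * ℓ := Nat.sInf_mem hne
    refine h1.trans (mul_le_mul_of_nonneg_right (fp_up17 hF hx ?_) hℓ.le)
    gcongr
  · exact fun h => Nat.sInf_le (s := {n : ℕ | 1 ≤ fp F.A₀ F.P (e * n) x * ℓ}) h

/-- the ratio of the class `x₁ ^ (1 / P)` is not too close to one -/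
theorem ratio17 (hF : F.Ok) {η : ℝ} (h0 : 0 ≤ η) (hη : η * (F.Cx : ℝ) ^ 2 ≤ 1 / 2) : 1 + η ≤ F.x₁ ^ (1 / (F.P : ℝ)) := by
  have hP : (1 : ℝ) ≤ F.P := by exact_mod_cast hF.hP
  have hC : (1 : ℝ) ≤ F.Cx := by exact_mod_cast hF.hCx
  have hPC : (F.P : ℝ) ≤ F.Cx := by exact_mod_cast hF.hPC
  have hx0 : 0 ≤ F.x₁ := by linarith [hF.h1]
  by_contra hcon
  push Not at hcon
  set r : ℝ := F.x₁ ^ (1 / (F.P : ℝ)) with hr
  have hr0 : 0 ≤ r := Real.rpow_nonneg hx0 _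
  have e1 : r ^ (F.P * F.Cx) = F.x₁ ^ F.Cx := by
    rw [pow_mul, hr, ← Real.rpow_natCast (F.x₁ ^ (1 / (F.P : ℝ))), ← Real.rpow_mul hx0]
    rw [one_div_mul_cancel (by linarith), Real.rpow_one]
  have h1 : (2 : ℝ) ≤ r ^ (F.P * F.Cx) := by rw [e1]; exact hF.hx1
  have h2 : r ^ (F.P * F.Cx) ≤ (1 + η) ^ (F.P * F.Cx) := pow_le_pow_left₀ hr0 hcon.le _
  have h3 : (1 + η) ^ (F.P * F.Cx) ≤ Real.exp ((F.P * F.Cx : ℕ) * η) := by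
    rw [Real.exp_nat_mul]
    exact pow_le_pow_left₀ (by linarith) (by linarith [Real.add_one_le_exp η]) _
  have h4 : ((F.P * F.Cx : ℕ) : ℝ) * η ≤ 1 / 2 := by
    push_cast
    calc (F.P : ℝ) * F.Cx * η ≤ F.Cx * F.Cx * η := by gcongr
      _ = η * (F.Cx : ℝ) ^ 2 := by ring
      _ ≤ _ := hη
  have h5 : Real.exp (1 / 2) < 2 := by
    have h6 := Real.exp_one_lt_d9
    have h7 : Real.exp (1 / 2) ^ 2 = Real.exp 1 := by
      rw [← Real.exp_nat_mul]; norm_num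
    have h8 : 0 < Real.exp (1 / 2) := Real.exp_pos _
    nlinarith
  have h9 : Real.exp ((F.P * F.Cx : ℕ) * η) ≤ Real.exp (1 / 2) := Real.exp_le_exp.2 h4
  linarith

end

section

variable {F : Fam} {κ D K : ℕ} {a₀ ℓst ℓ x : ℝ}

/-- powers of two on one level -/
theorem pow17 (hκ : 1 ≤ κ) (B : F.Big κ D K) : 8 * K ≤ K ^ (2 * κ + 2) ∧ K ≤ K ^ (2 * κ + 2) ∧ 2 * F.Cx ^ 2 ≤ 2 ^ (K + 1) := by
  have hK := B.hK
  have h1 : K ^ 2 ≤ K ^ (2 * κ + 2) := Nat.pow_le_pow_right (by omega) (by omega)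
  have h2 : 8 * K ≤ K ^ 2 := by nlinarith
  have h3 : F.Cx ^ 2 ≤ K := by
    have h4 := B.hCx
    rcases Nat.eq_zero_or_pos F.Cx with h5 | h5
    · rw [h5]; simp
    · have h6 : F.Cx ^ 2 ≤ F.Cx ^ 3 := Nat.pow_le_pow_right h5 (by norm_num)
      omega
  have h4 : K < 2 ^ K := Nat.lt_two_pow_self
  have h5 : 2 ^ (K + 1) = 2 * 2 ^ K := by rw [pow_succ, mul_comm]
  refine ⟨by omega, by omega, ?_⟩
  omega

/-- the times of `x` and of `a₀` -/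
theorem tp_near17 (hF : F.Ok) (hκ : 1 ≤ κ) (B : F.Big κ D K) (S : F.St κ D K a₀ ℓst) (hℓ : 0 < ℓ) (hst : ℓ ≤ ℓst)
    (hx : x ∈ Icc a₀ (a₀ + ℓst)) {u : ℕ} (hu : u < F.Q)
    (hT : tp F.A₀ F.P F.Q u a₀ ℓ ≤ tp F.A₀ F.P F.Q u a₀ ℓst + 2 ^ (K + 1) * (F.G * K ^ (2 * κ + 1))) :
    tp F.A₀ F.P F.Q u x ℓ ≤ tp F.A₀ F.P F.Q u a₀ ℓ ∧ tp F.A₀ F.P F.Q u a₀ ℓ ≤ tp F.A₀ F.P F.Q u x ℓ + 1 := by
  have hK := B.hK
  have hQ : 1 ≤ F.Q := by omega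
  obtain ⟨p1, p2, p3⟩ := pow17 hκ B
  have hx1 : F.x₁ ≤ x := S.lo.trans hx.1
  have hx2 : x ≤ F.x₂ := hx.2.trans S.hi
  have ha2 : a₀ ≤ F.x₂ := by linarith [S.hi, S.pos]
  have ha1 : 1 ≤ a₀ := hF.h1.le.trans S.lo
  have hsm : ℓst * 2 ^ (8 * K) ≤ 1 := by
    refine le_trans (mul_le_mul_of_nonneg_left ?_ S.pos.le) S.sm
    exact pow_le_pow_right₀ (by norm_num) p1
  have hℓK : ℓ * 2 ^ K ≤ 1 := by
    refine le_trans ?_ hsm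
    refine mul_le_mul hst ?_ (by positivity) S.pos.le
    exact pow_le_pow_right₀ (by norm_num) (by omega)
  have hPQ : F.P ≤ 4 * F.P * F.Q := by nlinarith
  have hbig0 := tp_big hF B.hCx S.lo ha2 hℓ hℓK u
  have hbigx := tp_big hF B.hCx hx1 hx2 hℓ hℓK u
  -- the first inequality
  have h1 : tp F.A₀ F.P F.Q u x ℓ ≤ tp F.A₀ F.P F.Q u a₀ ℓ := by
    refine tp_le ((tp_spec hF S.lo hℓ u).trans (mul_le_mul_of_nonneg_right ?_ hℓ.le))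
    exact fp_mono17 hF.hA hF.hP (by omega) (by linarith) hx.1
  refine ⟨h1, ?_⟩
  -- the size of the exponent
  have hN := B.num.hbig
  have hcount : 2 ^ (K + 1) * (F.G * K ^ (2 * κ + 1)) ≤ 2 ^ (2 * K) := by
    have i1 : 2 * (F.G * K ^ (2 * κ + 1)) ≤ 2 ^ K := by
      refine le_trans ?_ hN
      calc 2 * (F.G * K ^ (2 * κ + 1)) ≤ 8192 * K * (F.G * K ^ (2 * κ + 1)) := Nat.mul_le_mul_right _ (by omega)
        _ = 8192 * F.G * K * K ^ (2 * κ + 1) := by ring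
    calc 2 ^ (K + 1) * (F.G * K ^ (2 * κ + 1)) = 2 ^ K * (2 * (F.G * K ^ (2 * κ + 1))) := by rw [pow_succ]; ring
      _ ≤ 2 ^ K * 2 ^ K := Nat.mul_le_mul_left _ i1
      _ = 2 ^ (2 * K) := by rw [two_mul, pow_add]
  have hm2 : F.Q * tp F.A₀ F.P F.Q u x ℓ + u ≤ 2 ^ (3 * K) := by
    have i1 := tp_bound hF hκ B S hu (j := 2 ^ (K + 1) * (F.G * K ^ (2 * κ + 1))) hcount
    refine le_trans ?_ i1
    gcongr
    exact h1.trans hT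
  -- one more step
  refine tp_le ?_
  set m : ℕ := F.Q * tp F.A₀ F.P F.Q u x ℓ + u with hm
  have e1 : F.Q * (tp F.A₀ F.P F.Q u x ℓ + 1) + u = m + F.Q := by rw [hm]; ring
  rw [e1]
  set η : ℝ := 2 ^ (3 * K + 1) * ℓst with hη
  have hst0 : 0 < ℓst := S.pos
  have hη0 : 0 ≤ η := by positivity
  have hη1 : η * (F.Cx : ℝ) ^ 2 ≤ 1 / 2 := by
    have i1 : (2 : ℝ) * (F.Cx : ℝ) ^ 2 ≤ 2 ^ (K + 1) := by exact_mod_cast p3
    have i2 : η * (2 * (F.Cx : ℝ) ^ 2) ≤ η * 2 ^ (K + 1) := mul_le_mul_of_nonneg_left i1 hη0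
    have i3 : η * 2 ^ (K + 1) = ℓst * 2 ^ (4 * K + 2) := by
      rw [hη, show 4 * K + 2 = (3 * K + 1) + (K + 1) by omega, pow_add 2 (3 * K + 1) (K + 1)]; ring
    have i4 : ℓst * 2 ^ (4 * K + 2) ≤ 1 := by
      refine le_trans (mul_le_mul_of_nonneg_left ?_ hst0.le) hsm
      exact pow_le_pow_right₀ (by norm_num) (by omega)
    linarith
  have hr := ratio17 hF hη0 hη1
  have hr1 : 1 + η ≤ (F.x₁ ^ (1 / (F.P : ℝ))) ^ (m + F.Q - m) := by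
    rw [Nat.add_sub_cancel_left]
    refine hr.trans (le_self_pow₀ ?_ (by omega))
    linarith
  have hnear := fp_near17 (P := F.P) (m := m) (K := K) (δ := ℓst) hF.hA hF.hP (by omega) hm2 hst0.le ha1 hx.1 hx.2 (by
    refine le_trans (mul_le_mul_of_nonneg_left ?_ hst0.le) hsm
    exact pow_le_pow_right₀ (by norm_num) (by omega))
  have hstep := TPA.fp_st (x := a₀) (y := F.x₁) (m := m) (m' := m + F.Q) hF.hA hF.hP hF.h1.le S.lo (by omega)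
  have hspec := tp_spec hF hx1 hℓ u
  rw [← hm] at hspec
  have hfp0 : 0 ≤ fp F.A₀ F.P m a₀ := TPA.fp_nn hF.hA (by linarith)
  calc (1 : ℝ) ≤ fp F.A₀ F.P m x * ℓ := hspec
    _ ≤ fp F.A₀ F.P (m + F.Q) a₀ * ℓ := by
        refine mul_le_mul_of_nonneg_right ?_ hℓ.le
        calc fp F.A₀ F.P m x ≤ fp F.A₀ F.P m a₀ * (1 + 2 ^ (3 * K + 1) * ℓst) := hnear
          _ = fp F.A₀ F.P m a₀ * (1 + η) := by rw [hη]
          _ ≤ fp F.A₀ F.P m a₀ * (F.x₁ ^ (1 / (F.P : ℝ))) ^ (m + F.Q - m) := mul_le_mul_of_nonneg_left hr1 hfp0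
          _ ≤ _ := hstep

end

/-- CLS2: the powers. The times of `x` and of `a₀` differ by at most one term: `fp m x ≤ (1 + 2 ^ (3 K + 1) ℓst) fp m a₀`, `x₁ ^ (1 / P) ≥ 1 + 1 / (2 Cx ^ 2)` -/
theorem cls_pow {F : Fam} {κ D K : ℕ} {a₀ ℓst ℓ x : ℝ} (hF : F.Ok) (hκ : 1 ≤ κ) (B : F.Big κ D K) (S : F.St κ D K a₀ ℓst) (hℓ : 0 < ℓ) (hst : ℓ ≤ ℓst)
    (hx : x ∈ Icc a₀ (a₀ + ℓst)) {e : ℕ} (he : 1 ≤ e) (heQ : e ∣ F.Q)
    (hT : ∀ u < F.Q, tp F.A₀ F.P F.Q u a₀ ℓ - tp F.A₀ F.P F.Q u a₀ ℓst ≤ 2 ^ (K + 1) * (F.G * K ^ (2 * κ + 1)))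
    (hsum : ∀ u < F.Q, ∀ k < K, ∀ i < 2 ^ k, |∑ j ∈ Finset.range (tp F.A₀ F.P F.Q u a₀ ℓ - tp F.A₀ F.P F.Q u a₀ ℓst),
      haar k i (pwf F.A₀ F.cp F.P (F.Q * (tp F.A₀ F.P F.Q u a₀ ℓst + j) + u) x)| ≤ 33000 * F.G * (K : ℝ) ^ (2 * κ + 3))
    {α γ : ℝ} (h0 : 0 ≤ α) (h1 : α ≤ γ) (h2 : γ ≤ 1) :
    |(((Finset.Ico (nuP F.A₀ F.P e x ℓst) (nuP F.A₀ F.P e x ℓ)).filter fun n : ℕ =>
        α ≤ Int.fract (pwf F.A₀ F.cp F.P (e * n) x) ∧ Int.fract (pwf F.A₀ F.cp F.P (e * n) x) < γ).card : ℝ) -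
      (((nuP F.A₀ F.P e x ℓ : ℕ) : ℝ) - ((nuP F.A₀ F.P e x ℓst : ℕ) : ℝ)) * (γ - α)| ≤
      (1400000 * F.m ^ 3 * F.Q * F.G : ℕ) * (K : ℝ) ^ (2 * κ + 4) := by
  classical
  have hK := B.hK
  have hQ : 1 ≤ F.Q := hF.H.base.hQ
  have hst0 : 0 < ℓst := S.pos
  have hx1 : F.x₁ ≤ x := S.lo.trans hx.1
  have hKr : (1 : ℝ) ≤ K := by exact_mod_cast (show 1 ≤ K by omega)
  have hGr : (1 : ℝ) ≤ F.G := by exact_mod_cast hF.H.G_ge.2.2.2.1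
  have hQr : (1 : ℝ) ≤ F.Q := by exact_mod_cast hQ
  have hmr : (1 : ℝ) ≤ F.m := by exact_mod_cast hF.H.m1
  have hm3 : (1 : ℝ) ≤ (F.m : ℝ) ^ 3 := one_le_pow₀ hmr
  have hX : (1 : ℝ) ≤ (K : ℝ) ^ (2 * κ + 4) := one_le_pow₀ hKr
  set p : ℕ → Prop := fun m => α ≤ Int.fract (pwf F.A₀ F.cp F.P m x) ∧ Int.fract (pwf F.A₀ F.cp F.P m x) < γ with hp
  -- the times
  have I0 : ∀ n, nuP F.A₀ F.P e x ℓst ≤ n ↔ 1 ≤ fp F.A₀ F.P (e * n) x * ℓst := nuP_iff17 hF hx1 hst0 heQ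
  have I1 : ∀ n, nuP F.A₀ F.P e x ℓ ≤ n ↔ 1 ≤ fp F.A₀ F.P (e * n) x * ℓ := nuP_iff17 hF hx1 hℓ heQ
  have i0 : ∀ u < F.Q, ∀ j, tp F.A₀ F.P F.Q u x ℓst ≤ j ↔ 1 ≤ fp F.A₀ F.P (F.Q * j + u) x * ℓst :=
    fun u _ j => tp_iff17 hF hx1 hst0 u j
  have i1 : ∀ u < F.Q, ∀ j, tp F.A₀ F.P F.Q u x ℓ ≤ j ↔ 1 ≤ fp F.A₀ F.P (F.Q * j + u) x * ℓ :=
    fun u _ j => tp_iff17 hF hx1 hℓ u j
  have hcard := fun (p : ℕ → Prop) [DecidablePred p] => card_classes17 (W0 := fun m => 1 ≤ fp F.A₀ F.P m x * ℓst)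
    (W1 := fun m => 1 ≤ fp F.A₀ F.P m x * ℓ) he hQ heQ I0 I1 i0 i1 p
  have hle : ∀ {y : ℝ}, F.x₁ ≤ y → ∀ u, tp F.A₀ F.P F.Q u y ℓst ≤ tp F.A₀ F.P F.Q u y ℓ := fun hy u => tp_mono hF hy hℓ hst
  have hN : nuP F.A₀ F.P e x ℓst ≤ nuP F.A₀ F.P e x ℓ := by
    rw [I0]
    have h3 := (I1 (nuP F.A₀ F.P e x ℓ)).1 le_rfl
    refine h3.trans (mul_le_mul_of_nonneg_left hst ?_)
    exact TPA.fp_nn hF.hA (by linarith [hF.h1])
  have hcardN : ((nuP F.A₀ F.P e x ℓ : ℕ) : ℝ) - ((nuP F.A₀ F.P e x ℓst : ℕ) : ℝ) =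
      ∑ u ∈ (Finset.range F.Q).filter (e ∣ ·), (((tp F.A₀ F.P F.Q u x ℓ : ℕ) : ℝ) - ((tp F.A₀ F.P F.Q u x ℓst : ℕ) : ℝ)) := by
    have h3 := hcard (fun _ => True)
    simp only [Finset.filter_true, Nat.card_Ico] at h3
    rw [← Nat.cast_sub hN, h3, Nat.cast_sum]
    exact Finset.sum_congr rfl fun u _ => Nat.cast_sub (hle hx1 u)
  have hcardp := hcard p
  -- one class
  have hone : ∀ u < F.Q, |(((Finset.Ico (tp F.A₀ F.P F.Q u x ℓst) (tp F.A₀ F.P F.Q u x ℓ)).filter fun j => p (F.Q * j + u)).card : ℝ) -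
      (((tp F.A₀ F.P F.Q u x ℓ : ℕ) : ℝ) - ((tp F.A₀ F.P F.Q u x ℓst : ℕ) : ℝ)) * (γ - α)| ≤
      140000 * F.G * (K : ℝ) ^ (2 * κ + 4) + 2 := by
    intro u hu
    have hTu := hT u hu
    have hle0 := hle S.lo u
    obtain ⟨a1, a2⟩ := tp_near17 hF hκ B S hℓ hst hx hu (by omega)
    obtain ⟨b1, b2⟩ := tp_near17 hF hκ B S hst0 le_rfl hx hu (by omega)
    refine ends17 (fun j => p (F.Q * j + u)) (by linarith) (by linarith) (hle hx1 u) hle0 b1 b2 a1 a2 ?_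
    -- the discrepancy with the times of `a₀`
    obtain ⟨n, hn⟩ := Nat.exists_eq_add_of_le hle0
    have hn' : tp F.A₀ F.P F.Q u a₀ ℓ - tp F.A₀ F.P F.Q u a₀ ℓst = n := by omega
    have h5 := hsum u hu
    rw [hn'] at h5 hTu
    have h6 := disc_of_haar (fun j => pwf F.A₀ F.cp F.P (F.Q * (tp F.A₀ F.P F.Q u a₀ ℓst + j) + u) x) n K
      (E := 33000 * F.G * (K : ℝ) ^ (2 * κ + 3)) (by positivity) h5 α γ h0 h1 h2
    rw [hn, shift17]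
    have e1 : (((tp F.A₀ F.P F.Q u a₀ ℓst + n : ℕ) : ℝ) - ((tp F.A₀ F.P F.Q u a₀ ℓst : ℕ) : ℝ)) = n := by push_cast; ring
    rw [e1]
    refine h6.trans ?_
    have j1 : (n : ℝ) ≤ 2 ^ (K + 1) * (F.G * (K : ℝ) ^ (2 * κ + 1)) := by exact_mod_cast hTu
    have j2 : (n : ℝ) * (1 / 2) ^ K ≤ 2 * (F.G * (K : ℝ) ^ (2 * κ + 1)) := by
      calc (n : ℝ) * (1 / 2) ^ K ≤ (2 ^ (K + 1) * (F.G * (K : ℝ) ^ (2 * κ + 1))) * (1 / 2) ^ K :=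
            mul_le_mul_of_nonneg_right j1 (by positivity)
        _ = 2 * (F.G * (K : ℝ) ^ (2 * κ + 1)) * (2 ^ K * (1 / 2) ^ K) := by rw [pow_succ]; ring
        _ = 2 * (F.G * (K : ℝ) ^ (2 * κ + 1)) := by rw [← mul_pow]; norm_num
    have j3 : (K : ℝ) ^ (2 * κ + 1) ≤ (K : ℝ) ^ (2 * κ + 4) := pow_le_pow_right₀ hKr (by omega)
    have j4 : (F.G : ℝ) * (K : ℝ) ^ (2 * κ + 1) ≤ F.G * (K : ℝ) ^ (2 * κ + 4) := mul_le_mul_of_nonneg_left j3 (by positivity)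
    have j5 : 2 * ((K : ℝ) + 1) * (33000 * F.G * (K : ℝ) ^ (2 * κ + 3)) ≤ 4 * K * (33000 * F.G * (K : ℝ) ^ (2 * κ + 3)) :=
      mul_le_mul_of_nonneg_right (by linarith) (by positivity)
    have j6 : 4 * (K : ℝ) * (33000 * F.G * (K : ℝ) ^ (2 * κ + 3)) = 132000 * (F.G * (K : ℝ) ^ (2 * κ + 4)) := by
      rw [show (2 * κ + 4) = (2 * κ + 3) + 1 by omega, pow_succ]; ring
    have j7 : 0 ≤ (F.G : ℝ) * (K : ℝ) ^ (2 * κ + 4) := by positivity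
    linarith
  -- the sum over the classes
  have hgoal : |(((Finset.Ico (nuP F.A₀ F.P e x ℓst) (nuP F.A₀ F.P e x ℓ)).filter fun n : ℕ => p (e * n)).card : ℝ) -
      (((nuP F.A₀ F.P e x ℓ : ℕ) : ℝ) - ((nuP F.A₀ F.P e x ℓst : ℕ) : ℝ)) * (γ - α)| ≤
      F.Q * (140000 * F.G * (K : ℝ) ^ (2 * κ + 4) + 2) := by
    rw [hcardp, hcardN, Nat.cast_sum, Finset.sum_mul, ← Finset.sum_sub_distrib]
    refine (Finset.abs_sum_le_sum_abs _ _).trans ?_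
    refine (Finset.sum_le_sum fun u hu => hone u (Finset.mem_range.1 (Finset.mem_filter.1 hu).1)).trans ?_
    rw [Finset.sum_const, nsmul_eq_mul]
    refine mul_le_mul_of_nonneg_right ?_ (by positivity)
    have h4 : ((Finset.range F.Q).filter (e ∣ ·)).card ≤ F.Q := by
      refine (Finset.card_filter_le _ _).trans ?_
      rw [Finset.card_range]
    exact_mod_cast h4
  refine le_trans (le_of_eq ?_) (hgoal.trans ?_)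
  · congr!
  · have e1 : ((1400000 * F.m ^ 3 * F.Q * F.G : ℕ) : ℝ) * (K : ℝ) ^ (2 * κ + 4) =
        1400000 * (F.m : ℝ) ^ 3 * (F.Q * F.G * (K : ℝ) ^ (2 * κ + 4)) := by push_cast; ring
    rw [e1]
    have j1 : (F.Q : ℝ) * 1 ≤ F.Q * (F.G * (K : ℝ) ^ (2 * κ + 4)) :=
      mul_le_mul_of_nonneg_left (one_le_mul_of_one_le_of_one_le hGr hX) (by positivity)
    have j2 : (F.Q : ℝ) * (F.G * (K : ℝ) ^ (2 * κ + 4)) = F.Q * F.G * (K : ℝ) ^ (2 * κ + 4) := by ring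
    have j3 : 0 ≤ (F.Q : ℝ) * F.G * (K : ℝ) ^ (2 * κ + 4) := by positivity
    have j4 : 1400000 * (F.Q * F.G * (K : ℝ) ^ (2 * κ + 4)) ≤ 1400000 * (F.m : ℝ) ^ 3 * (F.Q * F.G * (K : ℝ) ^ (2 * κ + 4)) := by
      refine mul_le_mul_of_nonneg_right ?_ j3
      linarith
    have e2 : (F.Q : ℝ) * (140000 * F.G * (K : ℝ) ^ (2 * κ + 4) + 2) = 140000 * (F.Q * F.G * (K : ℝ) ^ (2 * κ + 4)) + 2 * F.Q := by ring
    rw [e2]
    linarith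

end Pool.Agent.Helper17.LD5
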